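import Pool.Agent.H442R3.Odd.Simple

/-!
# The disjoint odd paths problem is NP-complete

ODD-PATHS (Thomassen 1980): given a graph, a number `k` and two `k`-element sets `X`, `Y` of
vertices, are there `k` pairwise internally disjoint `(X, Y)`-paths of odd length?

The reduction is from 3SAT.  There are `k = 3 m` paths, one for each occurrence of a literal, and
they have to pass three layers with `k` vertices each.  Between the first two layers the occurrences
of a variable form a cycle with exactly two perfect matchings; one of them consists of edges and the
other one of paths of length 2, so that all occurrences of a variable are reached with the same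
parity (the truth value).  Between the last two layers the three occurrences of a clause have three
exits; two of them can be used with either parity, and the third one only by a true literal.
-/

namespace Pool.Agent.Results.MP_636301_lc.OddPathsNPComplete

open Pool.Agent.NPC Pool.Agent.H442R3.Odd

/-- **ODD-PATHS is NP-complete.**  It is in `NP`; every language in `NP` has a polynomial-time
many-one reduction to it, all of whose instances are well formed and consist of a simple graph and
disjoint sets `X`, `Y`.  Hence ODD-PATHS is in `coNP` if and only if `NP = coNP`. -/
theorem result :
    InNPP OddPaths ∧
    (∀ L : Set (List Bool), InNP L → ∃ f : List Bool → Inst, PolyTime (fun x => bits (f x)) ∧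
      (∀ x, Valid (f x) ∧ SimpleDisjoint (f x)) ∧ ∀ x, x ∈ L ↔ OddPaths (f x)) ∧
    (InCoNPP OddPaths ↔ ∀ L : Set (List Bool), InNP L ↔ InCoNP L) :=
  ⟨inNPP_oddPaths, npHardOn_oddPaths,
    Pool.Agent.H622R2.inCoNP_iff_of_complete inNPP_oddPaths npHard_oddPaths⟩

end Pool.Agent.Results.MP_636301_lc.OddPathsNPComplete
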